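import Pool.Agent.P8H28.QF.Fin3

/-!
# The common `ℚ`-form of the `ℓ`-adic monodromy groups exists if it exists for the middle cohomology

Let `A` be an abelian variety of dimension `g` over a number field `F`, `V = H_1(A(ℂ), ℚ)` with a
basis indexed by `ι` (so that `ι` has `2 g` elements), `ψ` the matrix of a Riemann form, `E` the set
of the matrices of the endomorphisms of `A` over the algebraic closure of `F`, `Γ` the absolute
Galois group of `F`, `ρ ℓ` its representation on `V_ℓ = V ⊗ ℚ_ℓ` and `χ ℓ` the cyclotomic character.
The following theorems are known, and they are hypotheses below, for `ℓ ≥ ℓ₀`: `Known` (Weil pairing,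
Faltings, Hodge-Tate, Pink; this is the structure of the starting file `LefschetzForm`), the theorem
of Bogomolov on the homotheties, the semisimplicity of the tensor powers of `V_ℓ` (Faltings,
Chevalley) and, only if the centre of the endomorphism algebra is not self-adjoint (factors of type
IV), the theorem of Vasiu and Ullmo-Yafaev that the centre of the Lie algebra of the monodromy group
has a `ℚ`-form, which is the same for all `ℓ` (the centre of the Lie algebra of the Mumford-Tate
group).

The endomorphisms of the `g`-th exterior power of `V_ℓ` are written as alternating matrices with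
rows and columns indexed by `Fin g → ι` (`Alternating`). Those that commute with a subgroup of
finite index of the Galois group are the Tate classes in the Künneth component `H^g(A) ⊗ H^g(A)` of
`H^(2g)(A × A)`.

**Theorem.** If these Tate classes have a common `ℚ`-form (there is a set `𝔻` of alternating matrices
over `ℚ` such that for all `ℓ ≥ ℓ₀` the `ℚ_ℓ`-span of `𝔻` is the space of these endomorphisms), then
the connected `ℓ`-adic monodromy groups have a common `ℚ`-form, as in the conjecture of Mumford, Serre
and Tate: there is an algebraic group `G ⊆ GSp(V, ψ)` over `ℚ`, given by a set `S` of polynomials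
over `ℚ`, such that `G_{ℚ_ℓ}` is the identity component of the Zariski closure of `ρ ℓ (Γ')` for all
primes `ℓ ≥ ℓ₀` and all subgroups `Γ'` of finite index (all finite extensions of `F`).

So the conjecture, which is about the invariants of the monodromy groups in all tensor powers of
`V_ℓ`, follows from its linear consequence for one Künneth component of the square of `A`. For
instance, it holds if the Tate classes in this component are combinations of Hodge classes, or of any
other rational classes.

The proof. Let `𝔤` be the Lie algebra of the monodromy group over an algebraic closure `Ω` of `ℚ_ℓ`,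
and let `𝔥` be the Lie algebra, defined over `ℚ`, of all infinitesimal similitudes of `V` that commute
with `E` and, on the tensors, with `𝔻`. The subspaces of the `g`-th exterior power that are stable
under the weak Hodge elements are stable under the Galois group (over a finite extension), so they
are the images of equivariant projections and are stable under `𝔥`. A weak Hodge element `p` has rank
`g`, so the exterior product `u` of a basis of `p V` is in the `g`-th exterior power. It is killed by
the elements of `𝔥` of degree `1` for the grading given by `p`, an eigenvector of those of degree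
`0`, and not killed by any nonzero operator of degree `-1`; since `x u` belongs to the `𝔤`-module
generated by `u`, for `x` in `𝔥`, the elements of `𝔥` of degree `-1` are in `𝔤`. So `[p, 𝔥]` is
contained in `𝔤`. The Lie algebra `𝔤` contains the replicas of its elements, and its trace form is
nondegenerate; it follows that every element of `𝔥` is the sum of an element of `𝔤` and of an operator
that commutes with the Galois group (over a finite extension), so that `𝔥` and `𝔤` have the same
derived algebra, and that `𝔤` is the sum of its derived algebra and its centre. So `𝔤` has a `ℚ`-form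
which does not depend on `ℓ`. The ideal of the connected monodromy group consists of the polynomials
all of whose derivatives along `𝔤` vanish at `1`: the space of these polynomials is stable under the
derivations of the weak Hodge elements, so it is stable under translations by the values of the weak
Hodge cocharacters, and these generate the group. So this ideal is generated by polynomials over
`ℚ`.
-/

namespace Pool.Agent.Results.MP_e965d0_ag.FormFromMiddle

open Pool.Agent.W528.ZC Pool.Agent.P8H28.QF

/-- The conjecture of Mumford, Serre and Tate for `A` follows from its consequence for the Tate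
classes in the middle Künneth component of `A × A`. -/
theorem result {ι : Type} [Fintype ι] [DecidableEq ι] (g : ℕ) (hg : Fintype.card ι = 2 * g)
    (ψ : Matrix ι ι ℚ) (_halt : ψ.transpose = -ψ) (hψ : IsUnit ψ.det) (E : Set (Matrix ι ι ℚ))
    {Γ : Type} [Group Γ] (ρ : ∀ (ℓ : ℕ) [Fact ℓ.Prime], Γ →* Matrix ι ι ℚ_[ℓ])
    (χ : ∀ (ℓ : ℕ) [Fact ℓ.Prime], Γ →* ℚ_[ℓ]) (ℓ₀ : ℕ)
    (known : ∀ (ℓ : ℕ) [Fact ℓ.Prime], ℓ₀ ≤ ℓ →
      Known (AlgebraicClosure ℚ_[ℓ]) (ρ ℓ) (χ ℓ) (mapQ ℚ_[ℓ] ψ) (mapQ ℚ_[ℓ] '' E))
    (bogomolov : ∀ (ℓ : ℕ) [Fact ℓ.Prime], ℓ₀ ≤ ℓ → ∀ c : AlgebraicClosure ℚ_[ℓ], c ≠ 0 →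
      InIdentityComponent (ρ ℓ) (c • (1 : Matrix ι ι (AlgebraicClosure ℚ_[ℓ]))))
    (semisimple : ∀ (ℓ : ℕ) [Fact ℓ.Prime], ℓ₀ ≤ ℓ → SemiM (tensRep g (ρ ℓ)))
    (centre : SelfAdjointCentre ψ E ∨ ∃ C : Set (Matrix ι ι ℚ),
      ∀ (ℓ : ℕ) [Fact ℓ.Prime], ℓ₀ ≤ ℓ → IsFormOfCentre (AlgebraicClosure ℚ_[ℓ]) (ρ ℓ) C)
    (middle : ∃ 𝔻 : Set (Matrix (Fin g → ι) (Fin g → ι) ℚ),
      ∀ (ℓ : ℕ) [Fact ℓ.Prime], ℓ₀ ≤ ℓ → IsFormOfMiddle g (ρ ℓ) 𝔻) :
    ∃ S : Set (MvPolynomial (ι × ι) ℚ), ∀ (ℓ : ℕ) [Fact ℓ.Prime], ℓ₀ ≤ ℓ →
      ∀ Γ' : Subgroup Γ, Γ'.FiniteIndex → ∀ x : Matrix ι ι (AlgebraicClosure ℚ_[ℓ]),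
        (InIdentityComponent ((ρ ℓ).comp Γ'.subtype) x ↔ IsZeroOf S x) :=
  form_all hg hψ known bogomolov semisimple centre middle

end Pool.Agent.Results.MP_e965d0_ag.FormFromMiddle
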